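import Pool.Agent.LightEdge.Example2

/-!
The minimal coefficient of `e_{5,5}` in the light-edge inequality for plane graphs of minimum
degree `5`: the least real `a` with `a * e_{5,5}(G) + e_{5,6}(G) ≥ 60` for every plane graph `G`
of minimum degree `5` is `7 / 3`.

Lower bound: a triangulation with 25 vertices, `e_{5,5} = 24` and `e_{5,6} = 4`.
Upper bound: Euler's formula and a discharging argument.
-/

namespace Pool.Agent.Results.MP_f6d334_co.ExactValue

open Pool.Agent.LightEdge

theorem result :
    IsLeast {a : ℝ | ∀ (V : Type) [Finite V] (G : SimpleGraph V), PlaneMinDegFive G →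
      60 ≤ a * (edgeCount G 5 5 : ℝ) + (edgeCount G 5 6 : ℝ)} (7 / 3) := by
  constructor
  · intro V _ G hG
    classical
    let _i : Fintype V := Fintype.ofFinite V
    obtain ⟨h5, ⟨v, hv⟩, R, hR⟩ := hG
    have h := upper R hR (fun v => by rw [← deg_eq]; exact h5 v) ⟨v⟩
    have h' : (180 : ℝ) ≤ 7 * (edgeCount G 5 5 : ℝ) + 3 * (edgeCount G 5 6 : ℝ) := by
      exact_mod_cast h
    linarith
  · intro a ha
    have h := ha (Fin 25) Ex25 ex_class
    rw [ex_55, ex_56] at h
    norm_num at h
    linarith

end Pool.Agent.Results.MP_f6d334_co.ExactValue
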